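import Pool.Agent.V5helper43.WP.Stm

/-!
# Project WP, jobs WIN and REPR
-/

set_option autoImplicit false

open Finset

namespace Pool.Agent.V5helper72.WP

open Pool.Agent.V5helper43.WP

/-- **WIN** -/
theorem t_WIN (hG : S_GRD) : S_WIN := by
  intro k q j hk hq
  obtain ⟨K, hK1, hK⟩ := hG k q j hk hq
  refine ⟨2 * K, by omega, ?_⟩
  intro t ht y L hy hL
  set β : ℝ := (1 - 1 / (k : ℝ)) ^ j with hβdef
  have hk' : (2 : ℝ) ≤ k := by exact_mod_cast hk
  have hβ0 : 0 ≤ β := by
    apply pow_nonneg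
    rw [sub_nonneg, div_le_one (by linarith)]
    linarith
  have hy1 : (1 : ℝ) ≤ y := by
    have : 1 ≤ y := by omega
    exact_mod_cast this
  have hyβ : 1 ≤ (y : ℝ) ^ β := Real.one_le_rpow hy1 hβ0
  have hKr : (1 : ℝ) ≤ K := by exact_mod_cast hK1
  have hKy : 1 ≤ (K : ℝ) * (y : ℝ) ^ β := by nlinarith
  obtain ⟨g, hg⟩ : ∃ g : ℕ, g = ⌊(K : ℝ) * (y : ℝ) ^ β⌋₊ + 1 := ⟨_, rfl⟩
  have hg1 : (K : ℝ) * (y : ℝ) ^ β < g := by
    rw [hg]; push_cast; exact Nat.lt_floor_add_one _
  have hg2 : (g : ℝ) ≤ 2 * (K * (y : ℝ) ^ β) := by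
    rw [hg]; push_cast
    have := Nat.floor_le (show 0 ≤ (K : ℝ) * (y : ℝ) ^ β by linarith)
    linarith
  have hg0 : 0 < g := by rw [hg]; omega
  -- the elements
  have hex : ∀ i : ℕ, ∃ u : ℕ, i < L / g → u ∈ U k q t j ∧ u + i * g ≤ y ∧ y < u + (i + 1) * g := by
    intro i
    by_cases hi : i < L / g
    · have h1 : (i + 1) * g ≤ L := (Nat.mul_le_mul_right g hi).trans (Nat.div_mul_le_self L g)
      have h2 : i * g ≤ y := by nlinarith
      have h3 : K ≤ y - i * g := by
        have : i * g ≤ L := by nlinarith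
        omega
      obtain ⟨u, hu, hu1, hu2⟩ := hK t ht (y - i * g) h3
      refine ⟨u, fun _ => ⟨hu, by omega, ?_⟩⟩
      have h4 : ((y - i * g : ℕ) : ℝ) ≤ y := by exact_mod_cast Nat.sub_le _ _
      have h5 : ((y - i * g : ℕ) : ℝ) ^ β ≤ (y : ℝ) ^ β :=
        Real.rpow_le_rpow (by positivity) h4 hβ0
      have h6 : ((y - i * g : ℕ) : ℝ) < u + g := by
        have : (K : ℝ) * ((y - i * g : ℕ) : ℝ) ^ β ≤ K * (y : ℝ) ^ β := by
          exact mul_le_mul_of_nonneg_left h5 (by positivity)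
        linarith
      have h7 : y - i * g < u + g := by exact_mod_cast h6
      have : (i + 1) * g = i * g + g := by ring
      omega
    · exact ⟨0, fun h => absurd h hi⟩
  choose u hu using hex
  have hinj : Set.InjOn u (Finset.range (L / g) : Set ℕ) := by
    have key : ∀ a b, a < b → b < L / g → u a ≠ u b := by
      intro a b hab hb h
      obtain ⟨-, h1, -⟩ := hu b hb
      obtain ⟨-, -, h2⟩ := hu a (hab.trans hb)
      rw [h] at h2
      have : (a + 1) * g ≤ b * g := Nat.mul_le_mul_right g hab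
      omega
    intro a ha b hb h
    rw [Finset.mem_coe, Finset.mem_range] at ha hb
    rcases lt_trichotomy a b with h1 | h1 | h1
    · exact absurd h (key a b h1 hb)
    · exact h1
    · exact absurd h.symm (key b a h1 ha)
  have hcard : L / g ≤ cw (U k q t j) y L := by
    have h1 : ((Finset.range (L / g)).image u).card = L / g := by
      rw [Finset.card_image_of_injOn hinj, Finset.card_range]
    have hfin : {v | v ∈ U k q t j ∧ v ≤ y ∧ y < v + L}.Finite :=
      (Set.finite_Iic y).subset fun v hv => hv.2.1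
    calc L / g = ((Finset.range (L / g)).image u : Set ℕ).ncard := by
          rw [Set.ncard_coe_finset, h1]
      _ ≤ _ := by
          refine Set.ncard_le_ncard ?_ hfin
          intro v hv
          rw [Finset.mem_coe, Finset.mem_image] at hv
          obtain ⟨i, hi, rfl⟩ := hv
          rw [Finset.mem_range] at hi
          obtain ⟨h2, h3, h4⟩ := hu i hi
          have h5 : (i + 1) * g ≤ L := (Nat.mul_le_mul_right g hi).trans (Nat.div_mul_le_self L g)
          exact ⟨h2, by omega, by omega⟩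
  have h1 : (L : ℝ) / g < ((L / g : ℕ) : ℝ) + 1 := by
    rw [div_lt_iff₀ (by exact_mod_cast hg0)]
    have := Nat.lt_div_mul_add (a := L) hg0
    have h2 : (L : ℝ) < ((L / g * g + g : ℕ) : ℝ) := by exact_mod_cast this
    push_cast at h2
    linarith
  have h2 : (L : ℝ) / (((2 * K : ℕ) : ℝ) * (y : ℝ) ^ β) ≤ (L : ℝ) / g := by
    refine div_le_div_of_nonneg_left (by positivity) (by exact_mod_cast hg0) ?_
    push_cast
    linarith
  have h3 : ((L / g : ℕ) : ℝ) ≤ cw (U k q t j) y L := by exact_mod_cast hcard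
  linarith

theorem repr_U {k q : ℕ} {t : ℕ → ℕ} (j : ℕ) : ∀ z ∈ U k q t j,
    ∃ x : Fin j → ℕ, (∀ l, 1 ≤ x l) ∧ ∑ l, (x l ^ k + t (x l)) = z := by
  induction j with
  | zero =>
    intro z hz
    exact ⟨fun l => 1, fun _ => le_rfl, by simpa using (show z = 0 from hz).symm⟩
  | succ j ih =>
    rintro z ⟨x, hx, -, v, hv, rfl⟩
    obtain ⟨f, hf, hs⟩ := ih v hv
    refine ⟨Fin.cons x f, fun l => Fin.cases hx hf l, ?_⟩
    rw [Fin.sum_univ_succ]
    simp only [Fin.cons_zero, Fin.cons_succ]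
    rw [hs, a]
    ring

/-- **REPR** -/
theorem t_REPR : S_REPR := by
  intro k q j X t i
  induction i with
  | zero => intro z _ hz; exact repr_U j z hz
  | succ i ih =>
    rintro z hX ⟨x, hx, v, hv, rfl⟩
    obtain ⟨f, hf, hs⟩ := ih v hX hv
    have hx1 : 1 ≤ x := by
      unfold blk at hx
      rw [Finset.mem_filter, Finset.mem_Icc] at hx
      omega
    refine ⟨(Fin.cons x f : Fin (j + i + 1) → ℕ), fun l => Fin.cases hx1 hf l, ?_⟩
    show ∑ l : Fin (j + i + 1), _ = _
    rw [Fin.sum_univ_succ]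
    simp only [Fin.cons_zero, Fin.cons_succ]
    rw [hs, a]
    ring

end Pool.Agent.V5helper72.WP
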